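import Pool.Agent.N818.TD.Mod

/-!
The rank form of the Birch and Swinnerton-Dyer conjecture for the quadratic twists of `X_0(49)`, and
the exact proportion, by natural density, among ALL squarefree `D ≥ 1` with `D ≡ 1 mod 4` and `7 ∤ D`,
of the twists with finitely many rational points and no element of order two in `Ш`.

`E_D : y² = x³ - 35 D² x - 98 D³` is the quadratic twist by `D` of `X_0(49)`. No condition is imposed on
the prime factors of `D` (besides `7 ∤ D`). The theorem says:

* (the criterion) for every squarefree `D ≥ 1` with `D ≡ 1 mod 4` and `7 ∤ D`: `E_D(ℚ)` is finite and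
  `Ш(E_D/ℚ)` has no element of order two if and only if there is no factorisation `D = d d'` in `ℤ[ω]`,
  `ω = (1 + √-7) / 2`, with `d ≡ 1 mod ω²`, `d ≠ 1`, such that `d` is a square modulo every prime
  dividing `d'` and `-√-7 d'` is a square modulo every prime dividing `d`;
* (a 2-converse) in this case the `L`-series has an entire continuation which does not vanish at
  `s = 1`, so that the rank form holds, both sides being `0`;
* (the exact law) among the squarefree `1 ≤ D ≤ X` with `D ≡ 1 mod 4`, `7 ∤ D`, the proportion of the `D`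
  such that `E_D(ℚ)` is finite and `Ш(E_D/ℚ)[2] = 0` has the limit `c / 2`,
  `c = ∏_{i ≥ 0} (1 - 2^{-(2i+1)}) = 0.4194...`.

The first proportions of this kind in the starting library are for families of density zero (all prime
factors of `D` in two classes modulo `56`); here the family is the full congruence class, and the
prime factors of `D` may be split or inert in `K = ℚ(√-7)`, `1` or `3` modulo `4`.

Proof. The central values: the induction over the sets of the prime elements of `K` of the starting
library (`Pool/Agent/R426/QD`) gives the exact 2-adic valuation of the value of the Hecke `L`-series; it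
is minimal if and only if an explicit matrix over `𝔽₂` attached to the prime elements of `K` dividing `D` is
nonsingular. The descent: the 2-descent over `K` (`Pool/Agent/R426/QD`) gives the group over `K`; the passage
from `K` to `ℚ` (`Pool/Agent/N818/TC`) in both directions is by the complex multiplication: the two
endomorphisms of degree two, conjugate over `ℚ`, transform a class over `K` of order two into a class
over `ℚ`; in the other direction the kernel of the restriction is the cohomology of `Gal(K/ℚ)` with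
values in the finite group `E_D(K)`, whose 2-part is generated by two points exchanged by the conjugation.
The proportion (`Pool/Agent/N973/ND`, joint work of helpers 973, 713, 897, 226 and 186): the singular sets are
counted by the linear algebra over `𝔽₂` for the split primes and the independence of the symbols
(large sieve and Siegel-Walfisz) for all `D` of the class, uniformly in the number of the prime
factors.
-/

set_option autoImplicit false

open Finset

namespace Pool.Agent.Results.MP_696deb_nt.DensityX49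

/-- coefficient of the twist `y² = x³ + A D x + B D` by `D` of `X_0(49)` -/
def A (D : ℤ) : ℤ := -35 * D ^ 2

/-- coefficient of the twist `y² = x³ + A D x + B D` by `D` of `X_0(49)` -/
def B (D : ℤ) : ℤ := -98 * D ^ 3

/-- the curve `y² = x³ + a x + b` over `ℚ` -/
def E (a b : ℤ) : WeierstrassCurve ℚ :=
  { a₁ := 0, a₂ := 0, a₃ := 0, a₄ := (a : ℚ), a₆ := (b : ℚ) }

/-- `y² = x³ + a x + b` has finitely many rational points and its Tate-Shafarevich group over `ℚ`
has no element of order two -/
def RankZeroShaTwo (a b : ℤ) : Prop :=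
  Finite (E a b).toAffine.Point ∧ ∀ x : Pool.Agent.TH841.SH.D.Sha (E a b), 2 • x = 0 → x = 0

/-- the conclusion of the frozen statement for `y² = x³ + a x + b`, together with the fact that the
order of vanishing and the rank are both `0` -/
def BSDRankZero (a b : ℤ) : Prop :=
  4 * a ^ 3 + 27 * b ^ 2 ≠ 0 ∧
    ∃ F : ℂ → ℂ, Differentiable ℂ F ∧
      (∀ s : ℂ, (3 : ℝ) / 2 < s.re →
        HasProd
          (fun p : ℕ => open Classical in
            if p.Prime ∧ ¬ ((p : ℤ) ∣ 2 * (-4 * a ^ 3 - 27 * b ^ 2)) then
              (1 - ((p : ℂ) - (Nat.card {q : ZMod p × ZMod p //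
                  q.2 ^ 2 = q.1 ^ 3 + (a : ZMod p) * q.1 + (b : ZMod p)} : ℂ))
                  * (p : ℂ) ^ (-s) + (p : ℂ) ^ (1 - 2 * s))⁻¹
            else 1)
          (F s)) ∧
      analyticOrderAt F 1 =
        ((Module.finrank ℤ
          (WeierstrassCurve.Affine.Point
            (WeierstrassCurve.toAffine
              ({ a₁ := 0, a₂ := 0, a₃ := 0, a₄ := (a : ℚ), a₆ := (b : ℚ) } :
                WeierstrassCurve ℚ))) : ℕ) : ℕ∞) ∧
      Module.finrank ℤ
        (WeierstrassCurve.Affine.Point
          (WeierstrassCurve.toAffine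
            ({ a₁ := 0, a₂ := 0, a₃ := 0, a₄ := (a : ℚ), a₆ := (b : ℚ) } :
              WeierstrassCurve ℚ))) = 0

/-- the ring `ℤ[ω]`, `ω = (1 + √-7)/2`, that is `ω² = ω - 2` -/
abbrev O : Type := QuadraticAlgebra ℤ (-2) 1

/-- `ω = (1 + √-7)/2` -/
def ω : O := ⟨0, 1⟩

/-- `D = d d'` in `ℤ[ω]` with `d ≡ 1 mod ω²`, `d ≠ 1`, such that `d` is a square modulo every prime
dividing `d'`, and `-√-7 d'` is a square modulo every prime dividing `d` (`√-7 = 2 ω - 1`) -/
def Factorisation (D : ℕ) : Prop := ∃ d d' : O, (D : O) = d * d' ∧ ω ^ 2 ∣ d - 1 ∧ d ≠ 1 ∧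
  (∀ p : O, Prime p → p ∣ d' → ∃ x : O, p ∣ x ^ 2 - d) ∧
  ∀ p : O, Prime p → p ∣ d → ∃ x : O, p ∣ x ^ 2 + (2 * ω - 1) * d'

/-- `D` is squarefree, `D ≡ 1 mod 4` and `7 ∤ D` -/
def Family (D : ℕ) : Prop := Squarefree D ∧ D % 4 = 1 ∧ ¬ 7 ∣ D

open Classical in
/-- the number of the `D ≤ X` of the class with the property `Q` -/
noncomputable def num (Q : ℕ → Prop) (X : ℕ) : ℕ := ((Icc 1 X).filter fun D => Family D ∧ Q D).card

/-- `Q` has the natural density `θ` in the class -/
def HasProportion (Q : ℕ → Prop) (θ : ℝ) : Prop :=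
  Filter.Tendsto (fun X : ℕ => (num Q X : ℝ) / (num (fun _ => True) X : ℝ)) Filter.atTop (nhds θ)

theorem bsd {D : ℕ} (h : Family D) (hR : RankZeroShaTwo (A D) (B D)) : BSDRankZero (A D) (B D) := by
  have hsq : Squarefree (D : ℤ) := Int.squarefree_natCast.2 h.1
  have h4 : (D : ℤ) % 4 = 1 := by have := h.2.1; omega
  have h7 : ¬ (7 : ℤ) ∣ (D : ℤ) := fun k => h.2.2 (by exact_mod_cast k)
  obtain ⟨F, k1, k2, k3, k4⟩ := Pool.Agent.N818.TC.rz_bsd hsq h4 h7 hR
  refine ⟨?_, F, k1, k2, ?_, k4⟩
  · have e : 4 * A D ^ 3 + 27 * B D ^ 2 = 2 ^ 8 * 7 ^ 3 * (D : ℤ) ^ 6 := by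
      unfold A B
      ring
    rw [e]
    exact mul_ne_zero (by norm_num) (pow_ne_zero 6 hsq.ne_zero)
  · rw [k3]
    have k4' : Module.finrank ℤ
        (WeierstrassCurve.Affine.Point
          (WeierstrassCurve.toAffine
            ({ a₁ := 0, a₂ := 0, a₃ := 0, a₄ := (A D : ℚ), a₆ := (B D : ℚ) } :
              WeierstrassCurve ℚ))) = 0 := k4
    rw [k4']
    rfl

theorem fac {D : ℕ} (h : Family D) : RankZeroShaTwo (A D) (B D) ↔ ¬ Factorisation D := by
  have hsq : Squarefree (D : ℤ) := Int.squarefree_natCast.2 h.1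
  have h4 : (D : ℤ) % 4 = 1 := by have := h.2.1; omega
  have h7 : ¬ (7 : ℤ) ∣ (D : ℤ) := fun k => h.2.2 (by exact_mod_cast k)
  have h1 := Pool.Agent.N818.TD.rz_fac hsq h4 h7
  unfold Pool.Agent.N818.TD.Fac at h1
  rw [show (((D : ℤ) : Pool.Agent.N818.TD.OO)) = ((D : ℕ) : O) by push_cast; rfl] at h1
  exact h1

/-- the constant `c = 0.4194...` -/
noncomputable def c : ℝ := ∏' i : ℕ, (1 - (1 / 2 : ℝ) ^ (2 * i + 1))

theorem num_true (X : ℕ) : num (fun _ => True) X = (open Classical in
    ((Icc 1 X).filter fun D : ℕ => Squarefree D ∧ D % 4 = 1 ∧ ¬ 7 ∣ D).card) := by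
  classical
  unfold num
  congr 1
  ext D
  simp only [Finset.mem_filter, and_true]
  exact Iff.rfl

theorem num_two (X : ℕ) : num (fun D => RankZeroShaTwo (A D) (B D)) X = (open Classical in
    ((Icc 1 X).filter fun D : ℕ => (Squarefree D ∧ D % 4 = 1 ∧ ¬ 7 ∣ D) ∧
      Pool.Agent.N818.TC.Rz (Pool.Agent.N818.TC.A D) (Pool.Agent.N818.TC.B D)).card) := by
  classical
  unfold num
  congr 1
  ext D
  simp only [Finset.mem_filter]
  exact Iff.rfl

theorem result :
    (∀ D : ℕ, Family D → (RankZeroShaTwo (A D) (B D) ↔ ¬ Factorisation D)) ∧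
    (∀ D : ℕ, Family D → RankZeroShaTwo (A D) (B D) → BSDRankZero (A D) (B D)) ∧
    HasProportion (fun D => RankZeroShaTwo (A D) (B D)) (c / 2) ∧
    0.4194 < c ∧ c < 0.4195 := by
  classical
  refine ⟨fun D h => fac h, fun D h hR => bsd h hR, ?_, ?_⟩
  · have h := Pool.Agent.N818.TC.rz_prop
    refine h.congr fun X => ?_
    rw [num_true, num_two]
  · have h := Pool.Agent.Y948.CQ.t_C2
    exact ⟨h.2.2.2.1, h.2.2.2.2⟩

end Pool.Agent.Results.MP_696deb_nt.DensityX49
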